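import Pool.Agent.Helper83.RB.St

set_option autoImplicit false

/-!
Project RB (MP_97dcad_al), module INN: the inner part (PI-by-soluble).
-/

namespace Pool.Agent.Helper58.RB

open Pool.Agent.Helper83.RB

theorem hINN (hPIR : StPIR) (hSOL : StSOL) : StINN := by
  intro p d s hp
  obtain ⟨C₀, hC₀⟩ := hPIR p d
  refine ⟨p ^ s * (C₀ + 1), ?_⟩
  intro m N _ _ hexp hgen ι W _ _ ρ hρ hder
  have hKn : (⨅ i, (ρ i).ker : Subgroup N).Normal :=
    Subgroup.normal_iInf_normal fun i => MonoidHom.normal_ker (ρ i)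
  have h1 : (⊤ : Subgroup N).lowerCentralSeries (C₀ * (m + 1)) ≤ (⨅ i, (ρ i).ker : Subgroup N) := by
    intro g hg
    rw [Subgroup.mem_iInf]
    intro i
    rw [MonoidHom.mem_ker]
    exact hC₀ m N hexp hgen (W i) (ρ i) (hρ i) g hg
  have h2 := hSOL p N hexp
    (fun i => (derivedSeries (⨅ i, (ρ i).ker : Subgroup N) i).map
      (⨅ i, (ρ i).ker : Subgroup N).subtype)
    (fun i => by
      have := derivedSeries_characteristic (⨅ i, (ρ i).ker : Subgroup N) i
      exact ConjAct.normal_of_characteristic_of_normal)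
    (fun i => by
      rw [derivedSeries_succ, Subgroup.map_commutator])
    (C₀ * (m + 1))
    (by
      rw [derivedSeries_zero, ← MonoidHom.range_eq_map, Subgroup.range_subtype]
      exact h1) s
  rw [eq_bot_iff]
  have h3 : p ^ s * (C₀ * (m + 1) + 1) ≤ p ^ s * (C₀ + 1) * (m + 1) := by
    rw [mul_assoc]
    refine Nat.mul_le_mul_left _ ?_
    nlinarith
  refine le_trans (Subgroup.lowerCentralSeries_antitone (⊤ : Subgroup N) h3) (le_trans h2 ?_)
  rw [hder, Subgroup.map_bot]

end Pool.Agent.Helper58.RB
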